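import Pool.Agent.Lib_helper55.M1.Half

set_option autoImplicit false

/-! # Case (IIIA), `m = 1`, honest star: from no half-edge to all -/

namespace Pool.Agent.Lib_helper55.M1

open PowerSeries Pool.Agent.Lib_helper36.SRC Pool.Agent.Lib_helper36.SRC.RT

/-- the case of no half-edge at `u`, for one `l` -/
def Base1 (l : ℕ) : Prop := ∀ (n : ℕ) (c W : RT), GoodUpTo n → Honest l c →
  size (node 0 [c]) + size W ≤ n + 1 → t W ≤ 1 / 8 → GoodJ (node 0 [c]) W

/-- a certificate gives the base case -/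
theorem base1_of_cert {l : ℕ} {g : ℝ} {G0 G1 G2 : ℝ⟦X⟧} (hcert : Cert1 l g G0 G1 G2) : Base1 l :=
  fun _ c W hn hc hs hW => goodJ_m1 hcert hn c W hc hs hW

/-- **Case (IIIA), `m = 1`, honest star child** -/
theorem goodJ_IIIA_m1 (hB : ∀ l : ℕ, 2 ≤ l → Base1 l) {n l : ℕ} (hn : GoodUpTo n) (h : ℕ)
    (c W : RT) (hc : Honest l c) (hs : size (node h [c]) + size W ≤ n + 1)
    (h1 : 2 * t c ≤ t (node h [c])) (h2 : 2 * t W ≤ t (node h [c])) : GoodJ (node h [c]) W := by
  have hs0 : size (node 0 [c]) + size W ≤ n + 1 := by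
    rw [size_node] at hs ⊢; exact hs
  have hl : 2 ≤ l := by
    by_contra hcon
    have htc : t c = (1 / 2) ^ (l + 1) := by rw [hc, t_rep]
    have ht : t (node h [c]) = (1 / 2) ^ (h + 1 + 1) := by unfold t; simp
    rw [htc, ht] at h1
    have h3 : (1 / 2 : ℝ) ^ 2 ≤ (1 / 2) ^ (l + 1) :=
      pow_le_pow_of_le_one (by norm_num) (by norm_num) (by omega)
    have h4 : (1 / 2 : ℝ) ^ (h + 1 + 1) ≤ (1 / 2) ^ 2 :=
      pow_le_pow_of_le_one (by norm_num) (by norm_num) (by omega)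
    norm_num at h3 h4
    linarith
  exact goodJ_m1_half hn c W hc hs0 (fun hW => hB l hl n c W hn hc hs0 hW) h h1 h2

end Pool.Agent.Lib_helper55.M1
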