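import Pool.Agent.Lib_helper36.SRC.IIIA

set_option autoImplicit false

/-! # Case (IIIA), `m = 1`, honest star: the interface for the certificates -/

namespace Pool.Agent.Lib_helper55.M1

open PowerSeries Pool.Agent.Lib_helper36.SRC Pool.Agent.Lib_helper36.SRC.RT

/-- `K = (1 + y / 2) ^ l` -/
noncomputable def K (l : ℕ) : ℝ⟦X⟧ := (1 + C (1 / 2) * (X - 1)) ^ l

/-- `D = K + τ y` -/
noncomputable def D (l : ℕ) : ℝ⟦X⟧ := K l + C ((1 / 2) ^ (l + 1)) * (X - 1)

/-- `S = (1 + y / 2) K + τ y` -/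
noncomputable def S (l : ℕ) : ℝ⟦X⟧ := (1 + C (1 / 2) * (X - 1)) * K l +
  C ((1 / 2) ^ (l + 1)) * (X - 1)

/-- the mean of the frame -/
noncomputable def mm (l : ℕ) : ℝ := (l : ℝ) / 2 + (1 / 2) ^ (l + 1) + 1 / 4

/-- **Certificate for one `l`**: three multipliers `G0, G1, G2` (leaves `1/2, 1/4, 1/8` at `w`) and
a number `g ≤ 2` such that, for every `ρ` in `[0, 1/8]`, the two residual coefficients are in `W`. -/
structure Cert1 (l : ℕ) (g : ℝ) (G0 G1 G2 : ℝ⟦X⟧) : Prop where
  hg : g ≤ 1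
  h0 : InW (mm l - 1 / 2) G0
  h1 : InW (mm l - 1 / 4) G1
  h2 : InW (mm l - 1 / 8) G2
  hA : ∀ ρ : ℝ, 0 ≤ ρ → ρ ≤ 1 / 8 → InW (mm l - ρ)
    (C (1 / 4 - ρ * g) * D l - C (1 / 4 - ρ) * (G0 + G1 + G2))
  hB : ∀ ρ : ℝ, 0 ≤ ρ → ρ ≤ 1 / 8 → InW (mm l + ρ)
    (C (1 / 4 - ρ * g) * S l - C (1 / 4 - ρ) * (X * G0 + (1 + C (1 / 2) * (X - 1)) * G1 +
      (1 + C (1 / 4) * (X - 1)) * G2))

/-- `c` is an honest star with `l` leaves (rooted at its centre) -/
def Honest (l : ℕ) (c : RT) : Prop := c = node 0 (List.replicate l (node 0 []))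

lemma N_rep (l : ℕ) : N (node 0 (List.replicate l (node 0 []))) = 1 := by
  induction l with
  | zero => simp
  | succ l ih => rw [List.replicate_succ, N_cons, B_nil, one_mul, ih]

lemma H_leaf : H (node 0 []) = 1 + C (1 / 2) * (X - 1) := by
  unfold H
  rw [B_nil, N_nil, mul_one]
  have : t (node 0 []) = 1 / 2 := by unfold t; norm_num
  rw [this]

lemma B_rep (l : ℕ) : B (node 0 (List.replicate l (node 0 []))) = K l := by
  induction l with
  | zero => simp [K]
  | succ l ih => rw [List.replicate_succ, B_cons, H_leaf, ih]; unfold K; ring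

lemma β_rep (l : ℕ) : β (node 0 (List.replicate l (node 0 []))) = (l : ℝ) / 2 := by
  induction l with
  | zero => simp
  | succ l ih =>
    rw [List.replicate_succ, β_cons, ih]
    have : t (node 0 []) = 1 / 2 := by unfold t; norm_num
    rw [this, β_nil]; push_cast; ring

lemma t_rep (l : ℕ) : t (node 0 (List.replicate l (node 0 []))) = (1 / 2) ^ (l + 1) := by
  unfold t; simp

lemma size_rep (l : ℕ) : size (node 0 (List.replicate l (node 0 []))) = l + 1 := by
  induction l with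
  | zero => simp [size_node]
  | succ l ih =>
    rw [List.replicate_succ, size_node, sizeL_cons]
    rw [size_node] at ih
    have : size (node 0 []) = 1 := by rw [size_node, sizeL_nil]
    omega

section
variable {l : ℕ} {c : RT} (hc : Honest l c)
include hc

lemma B_U : B (node 0 [c]) = D l := by
  rw [B_cons, B_nil, mul_one, hc]
  unfold H D
  rw [B_rep, N_rep, t_rep, mul_one]

lemma N_U : N (node 0 [c]) = K l := by
  rw [N_cons, N_nil, mul_one, hc, B_rep]

lemma t_U : t (node 0 [c]) = 1 / 4 := by unfold t; norm_num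

lemma A_U : A (node 0 [c]) = S l := by
  unfold A
  rw [B_U hc, N_U hc, t_U hc]
  unfold D S
  have : C (2 * (1 / 4) : ℝ) = C (1 / 2) := by norm_num
  rw [this]
  ring

lemma β_U : β (node 0 [c]) + t (node 0 [c]) = mm l := by
  rw [t_U hc, β_cons, β_nil, hc, β_rep, t_rep]
  unfold mm
  ring

end

/-- the certificate gives the case -/
theorem goodJ_m1 {l : ℕ} {g : ℝ} {G0 G1 G2 : ℝ⟦X⟧} (hcert : Cert1 l g G0 G1 G2) {n : ℕ}
    (hn : GoodUpTo n) (c W : RT) (hc : Honest l c) (hs : size (node 0 [c]) + size W ≤ n + 1)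
    (hW : t W ≤ 1 / 8) : GoodJ (node 0 [c]) W := by
  set ρ := t W with hρ
  have hρ0 : 0 < ρ := t_pos W
  have hq : 0 < 1 / 4 - ρ * g := by nlinarith [hcert.hg]
  have hp : 0 ≤ 1 / 4 - ρ := by linarith
  set a := (1 / 4 - ρ) / (1 / 4 - ρ * g) with ha
  have ha0 : 0 ≤ a := div_nonneg hp hq.le
  let F : ℕ → ℝ⟦X⟧ := fun k => C a * (if k = 0 then G0 else if k = 1 then G1 else G2)
  have hc2 : C (1 / (1 / 4 - ρ * g)) * C (1 / 4 - ρ * g) = (1 : ℝ⟦X⟧) := by
    rw [← map_mul, one_div_mul_cancel hq.ne', map_one]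
  have hca : C a = C (1 / (1 / 4 - ρ * g)) * C (1 / 4 - ρ) := by
    rw [← map_mul, ha]; congr 1; ring
  have hU2 : 2 ≤ size (node 0 [c]) := by
    rw [size_node, sizeL_cons]; have := size_pos c; omega
  apply goodJ_leaf_gadgets hn (node 0 [c]) W hs hU2 (Finset.range 3) F
  · intro k hk
    rw [β_U hc]
    have hk3 : k < 3 := Finset.mem_range.1 hk
    interval_cases k
    · exact InW.smul ha0 (hcert.h0.congr (by norm_num) rfl)
    · exact InW.smul ha0 (hcert.h1.congr (by norm_num) rfl)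
    · exact InW.smul ha0 (hcert.h2.congr (by norm_num) rfl)
  · rw [β_U hc, B_U hc]
    have h := InW.smul (one_div_nonneg.2 hq.le) (hcert.hA ρ hρ0.le hW)
    refine h.congr rfl ?_
    have e : ∑ k ∈ Finset.range 3, F k = C a * (G0 + G1 + G2) := by
      rw [Finset.sum_range_succ, Finset.sum_range_succ, Finset.sum_range_one]
      simp only [F]
      norm_num
      ring
    rw [e, hca]
    linear_combination (D l) * hc2
  · rw [β_U hc, A_U hc]
    have h := InW.smul (one_div_nonneg.2 hq.le) (hcert.hB ρ hρ0.le hW)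
    refine h.congr rfl ?_
    have e : ∑ k ∈ Finset.range 3, F k * (1 + C (2 * (1 / 2) ^ (k + 1)) * (X - 1)) =
        C a * (X * G0 + (1 + C (1 / 2) * (X - 1)) * G1 + (1 + C (1 / 4) * (X - 1)) * G2) := by
      rw [Finset.sum_range_succ, Finset.sum_range_succ, Finset.sum_range_one]
      simp only [F]
      norm_num
      ring
    rw [e, hca]
    linear_combination (S l) * hc2

end Pool.Agent.Lib_helper55.M1
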