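import Pool.Agent.Lib_helper55.M1.Iface

set_option autoImplicit false

/-! # Case (IIIA), `m = 1`, honest star: pointwise interfaces -/

namespace Pool.Agent.Lib_helper55.M1

open PowerSeries Pool.Agent.Lib_helper36.SRC Pool.Agent.Lib_helper36.SRC.RT

/-- pointwise version: one `W`, three multipliers -/
theorem goodJ_m1_at {l n : ℕ} (hn : GoodUpTo n) (c W : RT) (hc : Honest l c)
    (hs : size (node 0 [c]) + size W ≤ n + 1) (F0 F1 F2 : ℝ⟦X⟧)
    (h0 : InW (mm l - 1 / 2) F0) (h1 : InW (mm l - 1 / 4) F1) (h2 : InW (mm l - 1 / 8) F2)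
    (hA : InW (mm l - t W) (D l - (F0 + F1 + F2)))
    (hB : InW (mm l + t W) (S l - (X * F0 + (1 + C (1 / 2) * (X - 1)) * F1 +
      (1 + C (1 / 4) * (X - 1)) * F2))) : GoodJ (node 0 [c]) W := by
  let F : ℕ → ℝ⟦X⟧ := fun k => if k = 0 then F0 else if k = 1 then F1 else F2
  have hU2 : 2 ≤ size (node 0 [c]) := by
    rw [size_node, sizeL_cons]; have := size_pos c; omega
  apply goodJ_leaf_gadgets hn (node 0 [c]) W hs hU2 (Finset.range 3) F
  · intro k hk
    rw [β_U hc]
    have hk3 : k < 3 := Finset.mem_range.1 hk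
    interval_cases k
    · exact h0.congr (by norm_num) rfl
    · exact h1.congr (by norm_num) rfl
    · exact h2.congr (by norm_num) rfl
  · rw [β_U hc, B_U hc]
    refine hA.congr rfl ?_
    rw [Finset.sum_range_succ, Finset.sum_range_succ, Finset.sum_range_one]
    simp only [F]
    norm_num
  · rw [β_U hc, A_U hc]
    refine hB.congr rfl ?_
    rw [Finset.sum_range_succ, Finset.sum_range_succ, Finset.sum_range_one]
    simp only [F]
    norm_num
    ring

/-- pointwise version: one `W`, one multiplier -/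
theorem goodJ_m1_one {l n : ℕ} (hn : GoodUpTo n) (c W : RT) (hc : Honest l c)
    (hs : size (node 0 [c]) + size W ≤ n + 1) (F0 : ℝ⟦X⟧)
    (h0 : InW (mm l - 1 / 2) F0)
    (hA : InW (mm l - t W) (D l - F0))
    (hB : InW (mm l + t W) (S l - X * F0)) : GoodJ (node 0 [c]) W := by
  have hU2 : 2 ≤ size (node 0 [c]) := by
    rw [size_node, sizeL_cons]; have := size_pos c; omega
  apply goodJ_leaf_gadgets hn (node 0 [c]) W hs hU2 (Finset.range 1) (fun _ => F0)
  · intro k hk
    rw [β_U hc]
    have hk3 : k = 0 := by have := Finset.mem_range.1 hk; omega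
    subst hk3
    exact h0.congr (by norm_num) rfl
  · rw [β_U hc, B_U hc]
    refine hA.congr rfl ?_
    rw [Finset.sum_range_one]
  · rw [β_U hc, A_U hc]
    refine hB.congr rfl ?_
    rw [Finset.sum_range_one]
    norm_num
    ring

/-- **Pointwise certificate**, one multiplier, unnormalised: `a > 0` real,
`G` with `F0 = G / a` -/
theorem goodJ_m1_one_scaled {l n : ℕ} (hn : GoodUpTo n) (c W : RT) (hc : Honest l c)
    (hs : size (node 0 [c]) + size W ≤ n + 1) (a : ℝ) (ha : 0 < a) (G : ℝ⟦X⟧)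
    (h0 : InW (mm l - 1 / 2) G)
    (hA : InW (mm l - t W) (C a * D l - G))
    (hB : InW (mm l + t W) (C a * S l - X * G)) : GoodJ (node 0 [c]) W := by
  have hi : (C (1 / a) : ℝ⟦X⟧) * C a = 1 := by
    rw [← map_mul, one_div_mul_cancel ha.ne', map_one]
  have ha0 : 0 ≤ 1 / a := (one_div_pos.2 ha).le
  refine goodJ_m1_one hn c W hc hs (C (1 / a) * G) (InW.smul ha0 h0)
    ((InW.smul ha0 hA).congr rfl ?_) ((InW.smul ha0 hB).congr rfl ?_)
  · linear_combination (D l) * hi
  · linear_combination (S l) * hi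

end Pool.Agent.Lib_helper55.M1
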