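import Pool.Agent.Lib_helper55.M1.Zhon

set_option autoImplicit false

/-! # Case (IIIA), one honest star child: half-edges at `u` -/

namespace Pool.Agent.Lib_helper55.M1

open PowerSeries Pool.Agent.Lib_helper36.SRC Pool.Agent.Lib_helper36.SRC.RT

lemma three_le_of_t {l h : ℕ} (hl : 2 * (1 / 2 : ℝ) ^ (l + 1) ≤ (1 / 2) ^ (h + 1 + 1 + 1)) :
    3 ≤ l := by
  by_contra hcon
  have h1 : (1 / 2 : ℝ) ^ 3 ≤ (1 / 2) ^ (l + 1) :=
    pow_le_pow_of_le_one (by norm_num) (by norm_num) (by omega)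
  have h2 : (1 / 2 : ℝ) ^ (h + 1 + 1 + 1) ≤ (1 / 2) ^ 3 :=
    pow_le_pow_of_le_one (by norm_num) (by norm_num) (by omega)
  norm_num at h1 h2
  linarith

/-- one honest star child: from no half-edge to `h` half-edges at `u` -/
theorem goodJ_m1_half {n l : ℕ} (hn : GoodUpTo n) (c W : RT) (hc : Honest l c)
    (hs : size (node 0 [c]) + size W ≤ n + 1)
    (hbase : t W ≤ 1 / 8 → GoodJ (node 0 [c]) W) :
    ∀ h : ℕ, 2 * t c ≤ t (node h [c]) → 2 * t W ≤ t (node h [c]) → GoodJ (node h [c]) W := by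
  have htc : t c = (1 / 2) ^ (l + 1) := by rw [hc, t_rep]
  intro h
  induction h with
  | zero =>
    intro _ hW
    have : t (node 0 [c]) = 1 / 4 := t_U hc
    exact hbase (by linarith)
  | succ h ih =>
    intro h1 h2
    have hst := t_succ h [c]
    have hW0 := t_pos W
    have hc0 := t_pos c
    have hU' := ih (by linarith) (by linarith)
    have ht : t (node (h + 1) [c]) = (1 / 2) ^ (h + 1 + 1 + 1) := by unfold t; simp
    have hl : 3 ≤ l := three_le_of_t (h := h) (by rw [← ht, ← htc]; exact h1)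
    have ht8 : t (node (h + 1) [c]) ≤ 1 / 8 := by
      rw [ht]
      calc ((1 : ℝ) / 2) ^ (h + 1 + 1 + 1) ≤ (1 / 2) ^ 3 :=
            pow_le_pow_of_le_one (by norm_num) (by norm_num) (by omega)
        _ = 1 / 8 := by norm_num
    have hsz : size (node 0 [c]) = size c + 1 := by
      rw [size_node, sizeL_cons, sizeL_nil]
    have hcp := size_pos c
    have hWp := size_pos W
    have hZ := inW_Zh hl hW0 (by linarith : t W ≤ t (node (h + 1) [c]) / 2) ht8
      (by rw [← htc]; exact h1)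
    have hβ : β (node (h + 1) [c]) = (l : ℝ) / 2 + (1 / 2) ^ (l + 1) := by
      rw [β_cons, β_nil, hc, β_rep, t_rep]; ring
    refine goodJ_uhalf hn h [c] W (by rw [sizeL_cons, sizeL_nil]; omega) (by omega) hU'
      (by linarith) (hZ.congr (by rw [hβ]) ?_)
    rw [B_hh (h + 1) 0, N_hh (h + 1) 0, B_U hc, N_U hc]
    rfl

end Pool.Agent.Lib_helper55.M1
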