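import Pool.Agent.Lib_helper35.SRC.GenCoef

set_option autoImplicit false

/-! # `(1 + y/2)^3 (1 + ν y + y²/6)` is in `W` -/

namespace Pool.Agent.Lib_helper55.M1

open PowerSeries Pool.Agent.Lib_helper36.SRC Pool.Agent.Lib_helper35.SRC

/-- the levels -/
noncomputable def q3T (ν : ℝ) : ℝ⟦X⟧ :=
  C (7 / 6 - ν) * xk 0 (3 / 2 + ν) + C (19 / 6 - 2 * ν) * xk 1 (3 / 2 + ν) +
    C (8 / 3) * xk 2 (3 / 2 + ν) + C (2 / 3 + 2 * ν) * xk 3 (3 / 2 + ν) +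
    C (1 / 6 + ν) * xk 4 (3 / 2 + ν) + C (1 / 6) * xk 5 (3 / 2 + ν)

lemma coeff_xk' (k n : ℕ) (ν : ℝ) (h : k + 1 ≤ n) : coeff n (xk k ν)
    = ((k : ℝ) - ν) * ((n : ℝ) - ν) ^ (n - k - 1) / ((n - k).factorial : ℕ) := by
  obtain ⟨m, rfl⟩ : ∃ m, n = k + (m + 1) := ⟨n - k - 1, by omega⟩
  rw [coeff_xk]
  have e1 : k + (m + 1) - k - 1 = m := by omega
  have e2 : k + (m + 1) - k = m + 1 := by omega
  rw [e1, e2]
  push_cast
  ring_nf

lemma q3_poly (ν : ℝ) (m : ℝ) (h0 : 0 ≤ ν) (h1 : ν ≤ 1 / 4) (hm : 0 ≤ m) :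
    0 ≤ (7 / 6 - ν) * (0 - (3 / 2 + ν)) * (m + 6 - (3 / 2 + ν)) ^ 5
      + (19 / 6 - 2 * ν) * (1 - (3 / 2 + ν)) * ((m + 6) * (m + 6 - (3 / 2 + ν)) ^ 4)
      + (8 / 3) * (2 - (3 / 2 + ν)) * ((m + 6) * (m + 5) * (m + 6 - (3 / 2 + ν)) ^ 3)
      + (2 / 3 + 2 * ν) * (3 - (3 / 2 + ν)) * ((m + 6) * (m + 5) * (m + 4) * (m + 6 - (3 / 2 + ν)) ^ 2)
      + (1 / 6 + ν) * (4 - (3 / 2 + ν)) * ((m + 6) * (m + 5) * (m + 4) * (m + 3) * (m + 6 - (3 / 2 + ν)))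
      + (1 / 6) * (5 - (3 / 2 + ν)) * ((m + 6) * (m + 5) * (m + 4) * (m + 3) * (m + 2)) := by
  have a2 : 0 ≤ ν ^ 2 := by positivity
  have a4 : 0 ≤ ν ^ 4 := by positivity
  have a6 : 0 ≤ ν ^ 6 := by positivity
  have p4 : 0 ≤ 1 / 3 + 4 * ν + ν ^ 2 * (8 - 8 * ν) := by
    have := mul_nonneg a2 (show 0 ≤ 8 - 8 * ν by linarith)
    linarith
  have p3 : 0 ≤ 17 / 4 + 125 / 2 * ν + ν ^ 2 * (147 - 496 / 3 * ν) + 20 * ν ^ 4 := by
    have := mul_nonneg a2 (show 0 ≤ 147 - 496 / 3 * ν by linarith)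
    linarith
  have p2 : 0 ≤ 967 / 48 + 2835 / 8 * ν + ν ^ 2 * (2043 / 2 - 1273 * ν) +
      ν ^ 4 * (293 - 18 * ν) := by
    have := mul_nonneg a2 (show 0 ≤ 2043 / 2 - 1273 * ν by linarith)
    have := mul_nonneg a4 (show 0 ≤ 293 - 18 * ν by linarith)
    linarith
  have p1 : 0 ≤ 723 / 16 + 27279 / 32 * ν + ν ^ 2 * (50931 / 16 - 17321 / 4 * ν) +
      ν ^ 4 * (2861 / 2 - 349 / 2 * ν) + 7 * ν ^ 6 := by
    have := mul_nonneg a2 (show 0 ≤ 50931 / 16 - 17321 / 4 * ν by linarith)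
    have := mul_nonneg a4 (show 0 ≤ 2861 / 2 - 349 / 2 * ν by linarith)
    linarith
  have p0 : 0 ≤ 5781 / 128 + 45765 / 64 * ν + ν ^ 2 * (120069 / 32 - 87915 / 16 * ν) +
      ν ^ 4 * (18615 / 8 - 1689 / 4 * ν) + ν ^ 6 * (205 / 6 - ν) := by
    have := mul_nonneg a2 (show 0 ≤ 120069 / 32 - 87915 / 16 * ν by linarith)
    have := mul_nonneg a4 (show 0 ≤ 18615 / 8 - 1689 / 4 * ν by linarith)
    have := mul_nonneg a6 (show 0 ≤ 205 / 6 - ν by linarith)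
    linarith
  have h4 := mul_nonneg p4 (show 0 ≤ m ^ 4 by positivity)
  have h3 := mul_nonneg p3 (show 0 ≤ m ^ 3 by positivity)
  have h2 := mul_nonneg p2 (show 0 ≤ m ^ 2 by positivity)
  have h1' := mul_nonneg p1 hm
  have h0' := p0
  linear_combination h4 + h3 + h2 + h1' + h0'

lemma coeff_comb6 (n : ℕ) (c0 c1 c2 c3 c4 c5 : ℝ) (f0 f1 f2 f3 f4 f5 : ℝ⟦X⟧) :
    coeff n (C c0 * f0 + C c1 * f1 + C c2 * f2 + C c3 * f3 + C c4 * f4 + C c5 * f5)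
      = c0 * coeff n f0 + c1 * coeff n f1 + c2 * coeff n f2 + c3 * coeff n f3 + c4 * coeff n f4 +
        c5 * coeff n f5 := by
  simp only [map_add, coeff_C_mul]

lemma NN_q3T (ν : ℝ) (h0 : 0 ≤ ν) (h1 : ν ≤ 1 / 4) : NN (q3T ν) := by
  intro n
  unfold q3T
  rw [coeff_comb6]
  rcases Nat.lt_or_ge n 6 with hn | hn
  · interval_cases n
    · rw [coeff_xk_lt 1 0 _ (by norm_num), coeff_xk_lt 2 0 _ (by norm_num),
        coeff_xk_lt 3 0 _ (by norm_num), coeff_xk_lt 4 0 _ (by norm_num),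
        coeff_xk_lt 5 0 _ (by norm_num), coeff_xk_self]
      nlinarith
    · rw [coeff_xk_lt 2 1 _ (by norm_num), coeff_xk_lt 3 1 _ (by norm_num),
        coeff_xk_lt 4 1 _ (by norm_num), coeff_xk_lt 5 1 _ (by norm_num), coeff_xk_self,
        coeff_xk' 0 1 _ (by norm_num)]
      norm_num
      nlinarith
    · rw [coeff_xk_lt 3 2 _ (by norm_num), coeff_xk_lt 4 2 _ (by norm_num),
        coeff_xk_lt 5 2 _ (by norm_num), coeff_xk_self, coeff_xk' 0 2 _ (by norm_num),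
        coeff_xk' 1 2 _ (by norm_num)]
      norm_num [Nat.factorial]
      nlinarith [mul_nonneg h0 h0, mul_nonneg (mul_nonneg h0 h0) h0]
    · rw [coeff_xk_lt 4 3 _ (by norm_num), coeff_xk_lt 5 3 _ (by norm_num), coeff_xk_self,
        coeff_xk' 0 3 _ (by norm_num), coeff_xk' 1 3 _ (by norm_num), coeff_xk' 2 3 _ (by norm_num)]
      norm_num [Nat.factorial]
      nlinarith [mul_nonneg h0 h0, mul_nonneg (mul_nonneg h0 h0) h0,
        mul_nonneg (mul_nonneg h0 h0) (mul_nonneg h0 h0)]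
    · rw [coeff_xk_lt 5 4 _ (by norm_num), coeff_xk_self,
        coeff_xk' 0 4 _ (by norm_num), coeff_xk' 1 4 _ (by norm_num), coeff_xk' 2 4 _ (by norm_num),
        coeff_xk' 3 4 _ (by norm_num)]
      norm_num [Nat.factorial]
      nlinarith [mul_nonneg h0 h0, pow_nonneg h0 3, pow_nonneg h0 4, pow_nonneg h0 5,
        mul_nonneg (pow_nonneg h0 2) (sub_nonneg.2 h1), mul_nonneg (pow_nonneg h0 3) (sub_nonneg.2 h1),
        mul_nonneg (pow_nonneg h0 4) (sub_nonneg.2 h1)]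
    · rw [coeff_xk_self,
        coeff_xk' 0 5 _ (by norm_num), coeff_xk' 1 5 _ (by norm_num), coeff_xk' 2 5 _ (by norm_num),
        coeff_xk' 3 5 _ (by norm_num), coeff_xk' 4 5 _ (by norm_num)]
      norm_num [Nat.factorial]
      nlinarith [mul_nonneg h0 h0, pow_nonneg h0 3, pow_nonneg h0 4, pow_nonneg h0 5, pow_nonneg h0 6,
        mul_nonneg (pow_nonneg h0 2) (sub_nonneg.2 h1), mul_nonneg (pow_nonneg h0 3) (sub_nonneg.2 h1),
        mul_nonneg (pow_nonneg h0 4) (sub_nonneg.2 h1), mul_nonneg (pow_nonneg h0 5) (sub_nonneg.2 h1)]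
  · obtain ⟨m, rfl⟩ : ∃ m, n = m + 6 := ⟨n - 6, by omega⟩
    rw [coeff_xk' 0 _ _ (by omega), coeff_xk' 1 _ _ (by omega), coeff_xk' 2 _ _ (by omega),
      coeff_xk' 3 _ _ (by omega), coeff_xk' 4 _ _ (by omega), coeff_xk' 5 _ _ (by omega)]
    have e0 : m + 6 - 0 - 1 = m + 5 := by omega
    have e1 : m + 6 - 1 - 1 = m + 4 := by omega
    have e2 : m + 6 - 2 - 1 = m + 3 := by omega
    have e3 : m + 6 - 3 - 1 = m + 2 := by omega
    have e4 : m + 6 - 4 - 1 = m + 1 := by omega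
    have e5 : m + 6 - 5 - 1 = m := by omega
    have f0 : m + 6 - 0 = m + 6 := by omega
    have f1 : m + 6 - 1 = m + 5 := by omega
    have f2 : m + 6 - 2 = m + 4 := by omega
    have f3 : m + 6 - 3 = m + 3 := by omega
    have f4 : m + 6 - 4 = m + 2 := by omega
    have f5 : m + 6 - 5 = m + 1 := by omega
    rw [e0, e1, e2, e3, e4, e5, f0, f1, f2, f3, f4, f5]
    have key := q3_poly ν m h0 h1 (Nat.cast_nonneg m)
    set a : ℝ := ((m + 6 : ℕ) : ℝ) - (3 / 2 + ν) with ha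
    have ha' : (m : ℝ) + 6 - (3 / 2 + ν) = a := by rw [ha]; push_cast; ring
    rw [ha'] at key
    have ha0 : 0 ≤ a := by rw [← ha']; have : (0 : ℝ) ≤ m := Nat.cast_nonneg m; linarith
    have g : (0 : ℝ) < ((m + 1).factorial : ℕ) := by exact_mod_cast Nat.factorial_pos _
    have g2 : (((m + 2).factorial : ℕ) : ℝ) = (m + 2) * ((m + 1).factorial : ℕ) := by
      rw [Nat.factorial_succ (m + 1)]; push_cast; ring
    have g3 : (((m + 3).factorial : ℕ) : ℝ) = (m + 3) * ((m + 2).factorial : ℕ) := by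
      rw [Nat.factorial_succ (m + 2)]; push_cast; ring
    have g4 : (((m + 4).factorial : ℕ) : ℝ) = (m + 4) * ((m + 3).factorial : ℕ) := by
      rw [Nat.factorial_succ (m + 3)]; push_cast; ring
    have g5 : (((m + 5).factorial : ℕ) : ℝ) = (m + 5) * ((m + 4).factorial : ℕ) := by
      rw [Nat.factorial_succ (m + 4)]; push_cast; ring
    have g6 : (((m + 6).factorial : ℕ) : ℝ) = (m + 6) * ((m + 5).factorial : ℕ) := by
      rw [Nat.factorial_succ (m + 5)]; push_cast; ring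
    rw [g6, g5, g4, g3, g2]
    have hm : (0 : ℝ) ≤ m := Nat.cast_nonneg m
    have hpos := mul_nonneg (mul_nonneg (pow_nonneg ha0 m) key)
      (show (0 : ℝ) ≤ 1 / ((m + 6) * ((m + 5) * ((m + 4) * ((m + 3) * ((m + 2) *
        ((m + 1).factorial : ℕ)))))) by positivity)
    refine le_trans hpos (le_of_eq ?_)
    have d2 : (m : ℝ) + 2 ≠ 0 := by positivity
    have d3 : (m : ℝ) + 3 ≠ 0 := by positivity
    have d4 : (m : ℝ) + 4 ≠ 0 := by positivity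
    have d5 : (m : ℝ) + 5 ≠ 0 := by positivity
    have d6 : (m : ℝ) + 6 ≠ 0 := by positivity
    field_simp
    push_cast
    ring

lemma S_q3T (ν : ℝ) : S (q3T ν) = C 8 * ((1 + C (1 / 2) * (X - 1)) ^ 3 *
    (1 + C ν * (X - 1) + C (1 / 6) * (X - 1) ^ 2)) * Ex (-(3 / 2 + ν)) := by
  unfold q3T
  simp only [map_add (S), map_mul (S), S_C, S_xk]
  have e6 : (1 : ℝ⟦X⟧) = 6 * C (1 / 6) := by
    rw [← map_ofNat C 6, ← map_mul]; norm_num
  have e2 : (1 : ℝ⟦X⟧) = 2 * C (1 / 2) := by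
    rw [← map_ofNat C 2, ← map_mul]; norm_num
  obtain ⟨k, hk⟩ : ∃ k : ℝ⟦X⟧, k = C (1 / 2) * (X - 1) := ⟨_, rfl⟩
  have hX : (X : ℝ⟦X⟧) = 1 + 2 * k := by rw [hk]; linear_combination (X - 1) * e2
  have c0 : (C (7 / 6 - ν) : ℝ⟦X⟧) = 7 * C (1 / 6) - C ν := by
    rw [← map_ofNat C 7, ← map_mul, ← map_sub]; congr 1; ring
  have c1 : (C (19 / 6 - 2 * ν) : ℝ⟦X⟧) = 19 * C (1 / 6) - 2 * C ν := by
    rw [← map_ofNat C 19, ← map_ofNat C 2, ← map_mul, ← map_mul, ← map_sub]; congr 1; ring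
  have c2 : (C (8 / 3) : ℝ⟦X⟧) = 16 * C (1 / 6) := by
    rw [← map_ofNat C 16, ← map_mul]; congr 1; ring
  have c3 : (C (2 / 3 + 2 * ν) : ℝ⟦X⟧) = 4 * C (1 / 6) + 2 * C ν := by
    rw [← map_ofNat C 4, ← map_ofNat C 2, ← map_mul, ← map_mul, ← map_add]; congr 1; ring
  have c4 : (C (1 / 6 + ν) : ℝ⟦X⟧) = C (1 / 6) + C ν := by rw [map_add]
  have c8 : (C 8 : ℝ⟦X⟧) = 8 := map_ofNat C 8
  rw [c0, c1, c2, c3, c4, c8, ← hk, hX]
  set s : ℝ⟦X⟧ := C (1 / 6)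
  set v : ℝ⟦X⟧ := C ν
  set e : ℝ⟦X⟧ := Ex (-(3 / 2 + ν))
  linear_combination (-8 * (1 + k) ^ 3 * e) * e6

/-- `(1 + y/2)^3 (1 + ν y + y²/6)` is in `W_{3/2 + ν}` for `0 ≤ ν ≤ 1/4` -/
theorem inW_quad3 (ν : ℝ) (h0 : 0 ≤ ν) (h1 : ν ≤ 1 / 4) : InW (3 / 2 + ν)
    ((1 + C (1 / 2) * (X - 1)) ^ 3 * (1 + C ν * (X - 1) + C (1 / 6) * (X - 1) ^ 2)) := by
  have h := (inW_iff_NN (S_q3T ν)).2 (NN_q3T ν h0 h1)
  have h2 := InW.smul (show (0 : ℝ) ≤ 1 / 8 by norm_num) h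
  refine h2.congr rfl ?_
  rw [← mul_assoc, ← map_mul]
  norm_num

end Pool.Agent.Lib_helper55.M1
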