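import Pool.Agent.Lib_helper36.SRC.IIIA

set_option autoImplicit false

/-! # A half-edge at `u` is removable when the other end point is lighter -/

namespace Pool.Agent.Lib_helper55.M1

open PowerSeries Pool.Agent.Lib_helper36.SRC Pool.Agent.Lib_helper36.SRC.RT

/-- **Half-edge at `u`.** `U = node (h+1) cs`, `U' = node h cs`, `t = t U`, `ρ = t W < 2 t`. -/
theorem goodJ_uhalf {n : ℕ} (hn : GoodUpTo n) (h : ℕ) (cs : List RT) (W : RT)
    (hsU : sizeL cs ≤ n) (hsW : size W ≤ n) (hU' : GoodJ (node h cs) W)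
    (hρ : t W ≤ t (node (h + 1) cs))
    (hZ : InW (β (node (h + 1) cs) + t (node (h + 1) cs) + t W)
      ((1 + C (t (node (h + 1) cs) - t W) * (X - 1)) * B (node (h + 1) cs) +
        C (2 * t W) * ((X - 1) * N (node (h + 1) cs)) +
        C (4 * t (node (h + 1) cs) * (t (node (h + 1) cs) - t W)) *
          ((X - 1) ^ 2 * N (node (h + 1) cs)))) : GoodJ (node (h + 1) cs) W := by
  set U := node (h + 1) cs with hU
  set U' := node h cs with hU'd
  set ρ := t W with hρd
  set τ := t U with hτd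
  have hρ0 : 0 < ρ := t_pos W
  have hτ0 : 0 < τ := t_pos U
  have hτ1 : τ ≤ 1 / 2 := t_le_half U
  have ht' : t U' = 2 * τ := (t_succ h cs).symm
  have hB : B U' = B U := B_hh _ _ _
  have hN : N U' = N U := N_hh _ _ _
  have hβ : β U' = β U := β_hh _ _ _
  have hd : 0 < 2 * τ - ρ := by linarith
  set f := (τ - ρ) / (2 * τ - ρ) with hf
  have hf0 : 0 ≤ f := div_nonneg (by linarith) hd.le
  have e2 : f * (2 * τ - ρ) = τ - ρ := by rw [hf]; exact div_mul_cancel₀ _ hd.ne'
  have e1 : 1 - f = τ / (2 * τ - ρ) := by rw [eq_div_iff hd.ne']; linarith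
  have h1f : 0 < 1 - f := by rw [e1]; positivity
  have hA' : A U' = B U + C (4 * τ) * ((X - 1) * N U) := by
    unfold A
    rw [ht', hB, hN]
    congr 2
    ring
  have hAU : A U = B U + C (2 * τ) * ((X - 1) * N U) := rfl
  refine goodJ_gadgets hn U W hsW (Finset.univ : Finset Unit) (fun _ => A U') (fun _ => B U')
    (fun _ => C f * (1 + C (-τ) * (X - 1))) (fun _ => mJ U' W) ?_ ?_ ?_ ?_
  · intro _ _
    exact hU'
  · intro _ _
    refine (InW.smul hf0 (InW.coin (s := -τ) (by linarith))).congr ?_ rfl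
    unfold mJ; rw [hβ, ht']; ring
  · have hBU : InW (β U) (B U) := hn.BL (h + 1) cs hsU
    refine ((InW.smul h1f.le (InW.coin (s := τ - ρ) (by linarith))).mul hBU).congr (by ring) ?_
    rw [Finset.sum_const, Finset.card_univ, Fintype.card_unit, one_smul, hB]
    have hc : C (1 - f) * C (τ - ρ) = (C (f * τ) : ℝ⟦X⟧) := by
      rw [← map_mul]; congr 1; nlinarith [e2]
    have hc1 : (C (1 - f) : ℝ⟦X⟧) = 1 - C f := by rw [map_sub, map_one]
    have hc2 : (C (f * τ) : ℝ⟦X⟧) = C f * C τ := map_mul _ _ _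
    rw [map_neg]
    linear_combination (X - 1) * B U * hc + B U * hc1 + (X - 1) * B U * hc2
  · have h := InW.smul h1f.le hZ
    refine h.congr rfl ?_
    rw [Finset.sum_const, Finset.card_univ, Fintype.card_unit, one_smul, hA', hAU]
    have hc : C (1 - f) * C (τ - ρ) = (C f * C τ : ℝ⟦X⟧) := by
      rw [← map_mul, ← map_mul]; congr 1; nlinarith [e2]
    have hc1 : (C (1 - f) : ℝ⟦X⟧) = 1 - C f := by rw [map_sub, map_one]
    have hc3 : C (1 - f) * C (2 * ρ) = (C (2 * τ) - C f * C (4 * τ) : ℝ⟦X⟧) := by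
      rw [← map_mul, ← map_mul, ← map_sub]; congr 1; nlinarith [e2]
    have hc4 : C (1 - f) * C (4 * τ * (τ - ρ)) = (C f * C τ * C (4 * τ) : ℝ⟦X⟧) := by
      rw [← map_mul, ← map_mul, ← map_mul]; congr 1
      have : (1 - f) * (τ - ρ) = f * τ := by nlinarith [e2]
      calc (1 - f) * (4 * τ * (τ - ρ)) = (1 - f) * (τ - ρ) * (4 * τ) := by ring
        _ = f * τ * (4 * τ) := by rw [this]
    rw [map_neg]
    linear_combination (X - 1) * B U * hc + B U * hc1 + (X - 1) * N U * hc3 +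
      (X - 1) ^ 2 * N U * hc4

end Pool.Agent.Lib_helper55.M1
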