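import Pool.Agent.Lib_helper36.SRC.StarLemma
import Pool.Agent.Lib_helper55.M1.Quad3
import Pool.Agent.Lib_helper55.M1.Uhalf
import Pool.Agent.Lib_helper55.M1.Iface

set_option autoImplicit false

/-! # The claim for a half-edge at `u`, one honest star child -/

namespace Pool.Agent.Lib_helper55.M1

open PowerSeries Pool.Agent.Lib_helper36.SRC Pool.Agent.Lib_helper36.SRC.RT
  Pool.Agent.Lib_helper79.SRC

lemma inW_K (l : ℕ) : InW ((l : ℝ) / 2) (K l) := by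
  induction l with
  | zero => simpa [K] using InW.one (le_refl (0 : ℝ))
  | succ l ih =>
    refine ((InW.coin (s := 1 / 2) (by norm_num)).mul ih).congr ?_ ?_
    · push_cast; ring
    · unfold K; ring

/-- `κ^l (1 + ν y + e y²)` with `0 ≤ e ≤ 1/6`, homogeneous form -/
lemma inW_quadK {l : ℕ} (hl : 3 ≤ l) {ν M E2 : ℝ} (h0 : 0 ≤ ν) (h1 : ν ≤ 1 / 4) (hE : 0 ≤ E2)
    (hM : 6 * E2 ≤ M) : InW ((l : ℝ) / 2 + ν)
    (K l * (C M * (1 + C ν * (X - 1)) + C E2 * (X - 1) ^ 2)) := by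
  obtain ⟨j, rfl⟩ : ∃ j, l = j + 3 := ⟨l - 3, by omega⟩
  have a1 := InW.smul (show 0 ≤ M - 6 * E2 by linarith)
    ((inW_K (j + 3)).mul (InW.coin (s := ν) (by linarith)))
  have a2 := InW.smul (show 0 ≤ 6 * E2 by linarith) ((inW_K j).mul (inW_quad3 ν h0 h1))
  refine (a1.add (a2.congr ?_ rfl)).congr rfl ?_
  · push_cast; ring
  · have e1 : (C (M - 6 * E2) : ℝ⟦X⟧) = C M - C (6 * E2) := map_sub _ _ _
    have e2 : (C (6 * E2) : ℝ⟦X⟧) * C (1 / 6) = C E2 := by rw [← map_mul]; congr 1; ring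
    have e3 : K (j + 3) = K j * (1 + C (1 / 2) * (X - 1)) ^ 3 := by unfold K; ring
    rw [e1, e3]
    linear_combination (K j * (1 + C (1 / 2) * (X - 1)) ^ 3 * (X - 1) ^ 2) * e2

lemma prodC_cons' (a : ℝ) (as : List ℝ) : prodC (a :: as) = (1 + C a * (X - 1)) * prodC as := by
  unfold prodC; simp

lemma prodC_rep (l : ℕ) : prodC (List.replicate l (1 / 2)) = K l := by
  induction l with
  | zero => simp [prodC, K]
  | succ l ih => rw [List.replicate_succ, prodC_cons', ih]; unfold K; ring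

lemma sum_rep (l : ℕ) : (List.replicate l (1 / 2 : ℝ)).sum = (l : ℝ) / 2 := by
  rw [List.sum_replicate, nsmul_eq_mul]; ring

lemma Lv_rep (l : ℕ) : Lv (List.replicate l (1 / 2)) := by
  intro s hs
  rw [List.eq_of_mem_replicate hs]; norm_num

/-- star with `l` honest leaves -/
lemma star_a {l : ℕ} {w : ℝ} (hw : 0 ≤ w) (hw1 : w ≤ (1 / 2) ^ l) :
    InW ((l : ℝ) / 2 + w) (K l + C w * (X - 1)) := by
  have h := star_lemma (List.replicate l (1 / 2)) w (Lv_rep l) hw (by simpa using hw1)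
  rwa [sum_rep, prodC_rep] at h

/-- star with `l` honest leaves and one leaf `a` -/
lemma star_b {l : ℕ} {a w : ℝ} (ha : 0 ≤ a) (ha1 : a ≤ 1 / 2) (hw : 0 ≤ w)
    (hw1 : w ≤ (1 / 2) ^ (l + 1)) :
    InW ((l : ℝ) / 2 + a + w) (K l * (1 + C a * (X - 1)) + C w * (X - 1)) := by
  have h := star_lemma (a :: List.replicate l (1 / 2)) w
    (by
      intro s hs
      rcases List.mem_cons.1 hs with rfl | hs
      · exact ⟨ha, ha1⟩
      · exact Lv_rep l s hs) hw (by simpa using hw1)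
  rw [List.sum_cons, sum_rep, prodC_cons', prodC_rep] at h
  exact h.congr (by ring) (by ring)

/-- product of two coins with real parameters given by sum and product -/
lemma inW_two {s p : ℝ} (hd : 0 ≤ s ^ 2 - 4 * p) (hs : s ≤ 2) (h1 : s ≤ 1 + p) :
    InW s (1 + C s * (X - 1) + C p * (X - 1) ^ 2) := by
  set r := Real.sqrt (s ^ 2 - 4 * p) with hr
  have hr0 : 0 ≤ r := Real.sqrt_nonneg _
  have hr2 : r ^ 2 = s ^ 2 - 4 * p := Real.sq_sqrt hd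
  have hr1 : r ≤ 2 - s := by
    apply abs_le_of_sq_le_sq' _ (by linarith) |>.2
    nlinarith
  have ha : (s + r) / 2 ≤ 1 := by linarith
  have hb : (s - r) / 2 ≤ 1 := by linarith
  refine ((InW.coin ha).mul (InW.coin hb)).congr (by ring) ?_
  have e1 : (C s : ℝ⟦X⟧) = C ((s + r) / 2) + C ((s - r) / 2) := by rw [← map_add]; congr 1; ring
  have e2 : (C p : ℝ⟦X⟧) = C ((s + r) / 2) * C ((s - r) / 2) := by
    rw [← map_mul]; congr 1; nlinarith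
  rw [e1, e2]; ring

/-- `Z` -/
noncomputable def Zh (l : ℕ) (t ρ : ℝ) : ℝ⟦X⟧ :=
  (1 + C (t - ρ) * (X - 1)) * D l + C (2 * ρ) * ((X - 1) * K l) +
    C (4 * t * (t - ρ)) * ((X - 1) ^ 2 * K l)

/-- case `τ ≤ 2 ρ` -/
lemma Zh_b {l : ℕ} (hl : 3 ≤ l) {t ρ τ : ℝ} (hτ : τ = (1 / 2) ^ (l + 1)) (h1 : 0 < ρ) (h2 : ρ ≤ t / 2)
    (h3 : t ≤ 1 / 8) (h4 : 2 * τ ≤ t) (h5 : τ ≤ 2 * ρ) :
    InW ((l : ℝ) / 2 + τ + t + ρ) (Zh l t ρ) := by
  have hτ0 : 0 < τ := by rw [hτ]; positivity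
  have hd : 0 < 1 / 4 - τ := by linarith
  obtain ⟨m, hm⟩ : ∃ m : ℝ, m = (2 * ρ - τ) / (1 / 4 - τ) := ⟨_, rfl⟩
  have hm1 : m * (1 / 4 - τ) = 2 * ρ - τ := by rw [hm]; exact div_mul_cancel₀ _ hd.ne'
  have hm0 : 0 ≤ m := by rw [hm]; exact div_nonneg (by linarith) hd.le
  have hm2 : m ≤ 1 := by nlinarith
  have a1 := InW.smul (show 0 ≤ (1 - m) / 2 by linarith) ((star_a (l := l) (w := 2 * τ) (by linarith)
    (by rw [hτ, pow_succ]; linarith)).mul (InW.coin (s := t + ρ - τ) (by linarith)))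
  have a2 := InW.smul hm0 ((star_b (l := l) (a := 1 / 4) (w := τ) (by norm_num) (by norm_num) hτ0.le
    hτ.le).mul (InW.coin (s := t + ρ - 1 / 4) (by linarith)))
  have a3 := inW_quadK hl (ν := t + ρ + τ) (M := (1 - m) / 2)
    (E2 := 4 * t * (t - ρ) + m * (1 / 4 - t - ρ) / 4) (by linarith) (by linarith)
    (by have := mul_nonneg hm0 (show 0 ≤ 1 / 4 - t - ρ by linarith)
        have := mul_nonneg (show 0 ≤ t by linarith) (show 0 ≤ t - ρ by linarith)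
        linarith)
    (by
      -- multiply by `1/4 - τ`
      have key : (6 * (4 * t * (t - ρ) + m * (1 / 4 - t - ρ) / 4)) * (1 / 4 - τ)
          ≤ ((1 - m) / 2) * (1 / 4 - τ) := by
        have e : m * (1 / 4 - t - ρ) / 4 * (1 / 4 - τ) = (2 * ρ - τ) * (1 / 4 - t - ρ) / 4 := by
          rw [← hm1]; ring
        have e' : (1 - m) / 2 * (1 / 4 - τ) = (1 / 4 - 2 * ρ) / 2 := by
          have : (1 - m) / 2 * (1 / 4 - τ) = ((1 / 4 - τ) - m * (1 / 4 - τ)) / 2 := by ring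
          rw [this, hm1]; ring
        rw [e']
        have e2 : 6 * (4 * t * (t - ρ) + m * (1 / 4 - t - ρ) / 4) * (1 / 4 - τ)
            = 24 * t * (t - ρ) * (1 / 4 - τ) + 6 * (m * (1 / 4 - t - ρ) / 4 * (1 / 4 - τ)) := by ring
        rw [e2, e]
        nlinarith [mul_nonneg (show 0 ≤ t by linarith) (show 0 ≤ t - ρ by linarith),
          mul_nonneg (mul_nonneg (show 0 ≤ t by linarith) (show 0 ≤ t - ρ by linarith)) hτ0.le,
          mul_nonneg hτ0.le (show 0 ≤ 1 / 4 - t - ρ by linarith),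
          mul_nonneg (show 0 ≤ t / 2 - ρ by linarith) (show 0 ≤ 1 / 8 - t by linarith),
          mul_nonneg (show 0 ≤ 1 / 8 - t by linarith) (show 0 ≤ t by linarith), sq_nonneg ρ,
          mul_nonneg h1.le (show 0 ≤ 1 / 8 - t by linarith)]
      exact le_of_mul_le_mul_right key hd)
  refine ((a1.congr ?_ rfl).add ((a2.congr ?_ rfl).add (a3.congr ?_ rfl))).congr rfl ?_
  · ring
  · ring
  · ring
  · unfold Zh D
    rw [← hτ]
    have e1 : (C (2 * τ) : ℝ⟦X⟧) = 2 * C τ := by rw [map_mul, map_ofNat]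
    have e2 : (C (2 * ρ) : ℝ⟦X⟧) = 2 * C ρ := by rw [map_mul, map_ofNat]
    have e3 : (C (t - ρ) : ℝ⟦X⟧) = C t - C ρ := map_sub _ _ _
    have e4 : (C (t + ρ - τ) : ℝ⟦X⟧) = C t + C ρ - C τ := by rw [map_sub, map_add]
    have e5 : (C (t + ρ + τ) : ℝ⟦X⟧) = C t + C ρ + C τ := by rw [map_add, map_add]
    have e6 : (C (t + ρ - 1 / 4) : ℝ⟦X⟧) = C t + C ρ - C (1 / 4) := by rw [map_sub, map_add]
    have e7 : (C m : ℝ⟦X⟧) = 1 - 2 * C ((1 - m) / 2) := by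
      rw [← map_ofNat C 2, ← map_mul, ← map_one C, ← map_sub]; congr 1; ring
    have e8 : (C (4 * t * (t - ρ) + m * (1 / 4 - t - ρ) / 4) : ℝ⟦X⟧)
        = C (4 * t * (t - ρ)) - C m * (C (1 / 4) * (C t + C ρ - C (1 / 4))) := by
      rw [← map_add, ← map_sub, ← map_mul, ← map_mul, ← map_sub]; congr 1; ring
    have e9 : (C m : ℝ⟦X⟧) * (C (1 / 4) - C τ) = 2 * C ρ - C τ := by
      rw [← map_ofNat C 2, ← map_mul, ← map_sub, ← map_sub, ← map_mul, hm1]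
    rw [e8, e1, e2, e3, e4, e5, e6]
    set y : ℝ⟦X⟧ := X - 1
    set h : ℝ⟦X⟧ := C ((1 - m) / 2)
    rw [e7] at e9 ⊢
    linear_combination (-(y ^ 2 * C τ)) * e9

/-- case `2 ρ ≤ τ` -/
lemma Zh_a {l : ℕ} (hl : 3 ≤ l) {t ρ τ : ℝ} (hτ : τ = (1 / 2) ^ (l + 1)) (h1 : 0 < ρ) (h2 : ρ ≤ t / 2)
    (h3 : t ≤ 1 / 8) (h5 : 2 * ρ ≤ τ) :
    InW ((l : ℝ) / 2 + τ + t + ρ) (Zh l t ρ) := by
  have hτ0 : 0 < τ := by rw [hτ]; positivity
  have hτ1 : τ ≤ 1 / 16 := by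
    rw [hτ]
    calc ((1 : ℝ) / 2) ^ (l + 1) ≤ (1 / 2) ^ 4 :=
          pow_le_pow_of_le_one (by norm_num) (by norm_num) (by omega)
      _ = 1 / 16 := by norm_num
  obtain ⟨j, rfl⟩ : ∃ j, l = j + 1 := ⟨l - 1, by omega⟩
  obtain ⟨δ, hδ⟩ : ∃ δ : ℝ, δ = τ - 2 * ρ := ⟨_, rfl⟩
  have hδ0 : 0 ≤ δ := by rw [hδ]; linarith
  have hδ1 : δ ≤ 1 / 16 := by rw [hδ]; linarith
  have ht0 : 0 < t := by linarith
  have b1 := InW.smul (show (0 : ℝ) ≤ 1 / 2 by norm_num) ((star_b (l := j) (a := 1 / 2 - δ) (w := 2 * τ)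
    (by linarith) (by linarith) (by linarith) (by rw [hτ, pow_succ]; linarith)).mul
    (InW.coin (s := t - ρ) (by linarith)))
  have b2 := InW.smul (show (0 : ℝ) ≤ 1 / 2 by norm_num) (inW_quadK hl (ν := t + ρ + τ) (M := 3 / 4)
    (E2 := 8 * t * (t - ρ)) (by linarith) (by linarith)
    (by have := mul_nonneg ht0.le (show 0 ≤ t - ρ by linarith); linarith)
    (by nlinarith))
  obtain ⟨c, hc⟩ : ∃ c : ℝ, c = δ * (1 / 2 - t + ρ) := ⟨_, rfl⟩
  have hc0 : 0 ≤ c := by rw [hc]; exact mul_nonneg hδ0 (by linarith)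
  have hc1 : c ≤ 1 / 32 := by
    rw [hc]
    calc δ * (1 / 2 - t + ρ) ≤ (1 / 16) * (1 / 2) := by
          apply mul_le_mul hδ1 (by linarith) (by linarith) (by norm_num)
      _ = 1 / 32 := by norm_num
  have b3 := InW.smul (show (0 : ℝ) ≤ 1 / 8 by norm_num) ((inW_K j).mul
    (inW_two (s := 1 / 2 + (t + ρ + τ)) (p := (t + ρ + τ) / 2 - 4 * c)
      (by nlinarith [sq_nonneg (1 / 2 - (t + ρ + τ))]) (by linarith) (by linarith)))
  refine ((b1.congr ?_ rfl).add ((b2.congr ?_ rfl).add (b3.congr ?_ rfl))).congr rfl ?_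
  · push_cast; rw [hδ]; ring
  · ring
  · push_cast; ring
  · unfold Zh D
    rw [← hτ]
    have e1 : (C (2 * τ) : ℝ⟦X⟧) = 2 * C τ := by rw [map_mul, map_ofNat]
    have e2 : (C (2 * ρ) : ℝ⟦X⟧) = 2 * C ρ := by rw [map_mul, map_ofNat]
    have e3 : (C (t - ρ) : ℝ⟦X⟧) = C t - C ρ := map_sub _ _ _
    have e4 : (C (1 / 2 - δ) : ℝ⟦X⟧) = C (1 / 2) - C τ + 2 * C ρ := by
      rw [hδ, ← map_ofNat C 2, ← map_mul, ← map_sub, ← map_add]; congr 1; ring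
    have e5 : (C (t + ρ + τ) : ℝ⟦X⟧) = C t + C ρ + C τ := by rw [map_add, map_add]
    have e6 : (C (1 / 2 + (t + ρ + τ)) : ℝ⟦X⟧) = C (1 / 2) + (C t + C ρ + C τ) := by
      rw [map_add, map_add, map_add]
    have e7 : (C ((t + ρ + τ) / 2 - 4 * c) : ℝ⟦X⟧)
        = C (1 / 2) * (C t + C ρ + C τ) - 4 * ((C τ - 2 * C ρ) * (C (1 / 2) - C t + C ρ)) := by
      rw [hc, hδ, ← map_ofNat C 2, ← map_ofNat C 4]
      simp only [← map_mul, ← map_sub, ← map_add]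
      congr 1; ring
    have e8 : (C (8 * t * (t - ρ)) : ℝ⟦X⟧) = 8 * C t * (C t - C ρ) := by
      rw [← map_ofNat C 8]; simp only [← map_mul, ← map_sub]
    have e9 : (C (4 * t * (t - ρ)) : ℝ⟦X⟧) = 4 * C t * (C t - C ρ) := by
      rw [← map_ofNat C 4]; simp only [← map_mul, ← map_sub]
    have e10 : (C (1 / 2) : ℝ⟦X⟧) = 4 * C (1 / 8) := by
      rw [← map_ofNat C 4, ← map_mul]; congr 1; norm_num
    have e11 : (C (3 / 4) : ℝ⟦X⟧) = 6 * C (1 / 8) := by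
      rw [← map_ofNat C 6, ← map_mul]; congr 1; norm_num
    have e12 : (8 : ℝ⟦X⟧) * C (1 / 8) = 1 := by
      rw [← map_ofNat C 8, ← map_mul, ← map_one C]; congr 1; norm_num
    have eK : K (j + 1) = K j * (1 + C (1 / 2) * (X - 1)) := by unfold K; ring
    rw [eK, e1, e2, e3, e4, e5, e6, e7, e8, e9, e10, e11]
    set y : ℝ⟦X⟧ := X - 1
    set κ := K j
    set q : ℝ⟦X⟧ := C (1 / 8)
    linear_combination (-16 * C t * q * C ρ * y ^ 3 * κ + 3 * C t * q * y * κ + 4 * C t * q * y ^ 2 * κ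
      + 12 * C t * q ^ 2 * y ^ 2 * κ - 4 * C t * C ρ * y ^ 2 * κ + C t * C τ * y ^ 2
      + C t * y * κ + 16 * C t ^ 2 * q * y ^ 3 * κ + 4 * C t ^ 2 * y ^ 2 * κ
      + 3 * q * C ρ * y * κ + 4 * q * C ρ * y ^ 2 * κ + 3 * q * C τ * y * κ
      + 4 * q * y * κ + 3 * q * κ + 12 * q ^ 2 * C ρ * y ^ 2 * κ
      + 12 * q ^ 2 * C τ * y ^ 2 * κ + 12 * q ^ 2 * y * κ - C ρ * C τ * y ^ 2
      + C ρ * y * κ + C τ * y + κ) * e12

/-- **The claim `Z`** for an honest star with `l ≥ 3` leaves -/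
theorem inW_Zh {l : ℕ} (hl : 3 ≤ l) {t ρ : ℝ} (h1 : 0 < ρ) (h2 : ρ ≤ t / 2) (h3 : t ≤ 1 / 8)
    (h4 : 2 * (1 / 2) ^ (l + 1) ≤ t) :
    InW ((l : ℝ) / 2 + (1 / 2) ^ (l + 1) + t + ρ) (Zh l t ρ) := by
  rcases le_total ((1 / 2 : ℝ) ^ (l + 1)) (2 * ρ) with h | h
  · exact Zh_b hl rfl h1 h2 h3 h4 h
  · exact Zh_a hl rfl h1 h2 h3 h

end Pool.Agent.Lib_helper55.M1
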